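import Mathlib

/-!
# MP_88e7bb_co: an `i`-graph without a well-covered seed graph

The 3-cube minus a vertex is the `i`-graph of a tree (a spider with three legs of length two), but it is
not the `i`-graph of any well-covered graph.
-/

set_option autoImplicit false

namespace Pool.Agent.Results.MP_88e7bb_co.CubeMinusVertex

/-- `S` is an independent dominating set of `G`. -/
def IsIndepDom {V : Type} (G : SimpleGraph V) (S : Finset V) : Prop :=
  (∀ u ∈ S, ∀ v ∈ S, ¬ G.Adj u v) ∧ ∀ v, v ∉ S → ∃ u ∈ S, G.Adj u v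

/-- The independent domination number `i(G)`: the least size of an independent dominating set. -/
noncomputable def indepDomNum {V : Type} (G : SimpleGraph V) : ℕ :=
  sInf {k : ℕ | ∃ S : Finset V, IsIndepDom G S ∧ S.card = k}

/-- An `i`-set of `G`: an independent dominating set of size `i(G)`. -/
def IsISet {V : Type} (G : SimpleGraph V) (S : Finset V) : Prop :=
  IsIndepDom G S ∧ S.card = indepDomNum G

/-- The swap relation on vertex sets: `Y = (X \ {u}) ∪ {v}` for some `u ∈ X`, `v ∉ X` with `uv` an edge. -/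
def Slide {V : Type} (G : SimpleGraph V) (X Y : Finset V) : Prop :=
  ∃ u ∈ X, ∃ v, v ∉ X ∧ G.Adj u v ∧ ∀ w, w ∈ Y ↔ (w ∈ X ∧ w ≠ u) ∨ w = v

theorem Slide.symm {V : Type} {G : SimpleGraph V} {X Y : Finset V} (h : Slide G X Y) :
    Slide G Y X := by
  obtain ⟨u, hu, v, hv, huv, hY⟩ := h
  refine ⟨v, (hY v).2 (Or.inr rfl), u, fun h => ?_, huv.symm, fun w => ?_⟩
  · rcases (hY u).1 h with h | h
    · exact h.2 rfl
    · exact hv (h ▸ hu)
  · constructor
    · intro hw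
      by_cases hwu : w = u
      · exact Or.inr hwu
      · refine Or.inl ⟨(hY w).2 (Or.inl ⟨hw, hwu⟩), ?_⟩
        rintro rfl
        exact hv hw
    · rintro (⟨h1, h2⟩ | h1)
      · rcases (hY w).1 h1 with h | h
        · exact h.1
        · exact absurd h h2
      · rw [h1]; exact hu

/-- The `i`-graph of `G`: its vertices are the `i`-sets of `G`, adjacent when one token slides along an
edge of `G`. -/
def iGraph {V : Type} (G : SimpleGraph V) : SimpleGraph {S : Finset V // IsISet G S} where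
  Adj X Y := Slide G X.1 Y.1
  symm := ⟨fun _ _ h => Slide.symm h⟩
  loopless := ⟨by
    rintro X ⟨u, hu, v, hv, huv, hY⟩
    exact hv ((hY v).2 (Or.inr rfl))⟩

/-- `H` is `i`-graph realizable: it is isomorphic to the `i`-graph of some finite graph. -/
def IsIGraph {W : Type} (H : SimpleGraph W) : Prop :=
  ∃ (V : Type) (_ : Fintype V) (G : SimpleGraph V), Nonempty (iGraph G ≃g H)

/-- `G` is well-covered: all maximal independent sets (equivalently, independent dominating sets) have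
the same size. -/
def WellCovered {V : Type} (G : SimpleGraph V) : Prop :=
  ∀ S T : Finset V, IsIndepDom G S → IsIndepDom G T → S.card = T.card

/-- The 3-cube minus a vertex: the vertices are the binary numbers `0, …, 6`, adjacent when they differ in
exactly one bit. -/
def H : SimpleGraph (Fin 7) where
  Adj i j := i.val ^^^ j.val = 1 ∨ i.val ^^^ j.val = 2 ∨ i.val ^^^ j.val = 4
  symm := ⟨fun i j h => by rwa [Nat.xor_comm]⟩
  loopless := ⟨fun i h => by simp at h⟩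

instance : DecidableRel H.Adj := fun i j =>
  inferInstanceAs (Decidable (i.val ^^^ j.val = 1 ∨ i.val ^^^ j.val = 2 ∨ i.val ^^^ j.val = 4))

/-! ### The seed tree -/

/-- The spider: legs `6 - i - (i + 3)` for `i = 0, 1, 2`. -/
def spider : SimpleGraph (Fin 7) where
  Adj i j := (i.val + 3 = j.val ∧ i.val < 3) ∨ (j.val + 3 = i.val ∧ j.val < 3) ∨
    (i.val = 6 ∧ j.val < 3) ∨ (j.val = 6 ∧ i.val < 3)
  symm := ⟨fun i j h => by tauto⟩
  loopless := ⟨fun i h => by omega⟩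

instance : DecidableRel spider.Adj := fun i j =>
  inferInstanceAs (Decidable ((i.val + 3 = j.val ∧ i.val < 3) ∨ (j.val + 3 = i.val ∧ j.val < 3) ∨
    (i.val = 6 ∧ j.val < 3) ∨ (j.val = 6 ∧ i.val < 3)))

instance (S : Finset (Fin 7)) : Decidable (IsIndepDom spider S) := by
  unfold IsIndepDom; infer_instance

instance (S T : Finset (Fin 7)) : Decidable (Slide spider S T) := by
  unfold Slide; infer_instance

/-- The `i`-set of the spider belonging to a binary number. -/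
def F (n : Fin 7) : Finset (Fin 7) :=
  {if n.val.testBit 0 then 3 else 0, if n.val.testBit 1 then 4 else 1,
    if n.val.testBit 2 then 5 else 2}

theorem F_dom : ∀ n, IsIndepDom spider (F n) ∧ (F n).card = 3 := by decide +kernel

theorem three_le : ∀ S : Finset (Fin 7), IsIndepDom spider S → 3 ≤ S.card := by decide +kernel

theorem F_surj : ∀ S : Finset (Fin 7), IsIndepDom spider S → S.card = 3 → ∃ n, F n = S := by
  decide +kernel

theorem F_inj : ∀ m n, F m = F n → m = n := by decide +kernel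

theorem F_adj : ∀ m n, Slide spider (F m) (F n) ↔ H.Adj m n := by decide +kernel

theorem spider_num : indepDomNum spider = 3 := by
  unfold indepDomNum
  apply le_antisymm
  · exact Nat.sInf_le ⟨F 0, (F_dom 0).1, (F_dom 0).2⟩
  · refine le_csInf ⟨3, F 0, (F_dom 0).1, (F_dom 0).2⟩ ?_
    rintro k ⟨S, hS, rfl⟩
    exact three_le S hS

theorem H_isIGraph : IsIGraph H := by
  refine ⟨Fin 7, inferInstance, spider, ⟨SimpleGraph.Iso.symm
    { toEquiv := Equiv.ofBijective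
        (fun n => (⟨F n, (F_dom n).1, by rw [(F_dom n).2, spider_num]⟩ :
          {S : Finset (Fin 7) // IsISet spider S})) ⟨?_, ?_⟩
      map_rel_iff' := ?_ }⟩⟩
  · intro m n h
    exact F_inj m n (Subtype.mk.inj h)
  · rintro ⟨S, hS, hc⟩
    obtain ⟨n, hn⟩ := F_surj S hS (by rw [hc, spider_num])
    exact ⟨n, Subtype.ext hn⟩
  · intro m n
    exact F_adj m n

/-! ### No well-covered seed -/

section General

variable {V : Type} {G : SimpleGraph V}

theorem exists_extend [Fintype V] (W : Finset V) (hW : ∀ u ∈ W, ∀ v ∈ W, ¬ G.Adj u v) :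
    ∃ T : Finset V, IsIndepDom G T ∧ W ⊆ T := by
  classical
  have hne : {T : Finset V | W ⊆ T ∧ ∀ u ∈ T, ∀ v ∈ T, ¬ G.Adj u v}.Nonempty := ⟨W, subset_rfl, hW⟩
  obtain ⟨T, hT⟩ := Set.Finite.exists_maximal (Set.toFinite _) hne
  refine ⟨T, ⟨hT.prop.2, fun v hv => ?_⟩, hT.prop.1⟩
  by_contra hcon
  push Not at hcon
  have hmem : insert v T ∈ {T : Finset V | W ⊆ T ∧ ∀ u ∈ T, ∀ v ∈ T, ¬ G.Adj u v} := by
    refine ⟨hT.prop.1.trans (Finset.subset_insert _ _), ?_⟩
    intro a ha b hb hab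
    rcases Finset.mem_insert.1 ha with ha' | ha' <;> rcases Finset.mem_insert.1 hb with hb' | hb'
    · rw [ha', hb'] at hab; exact G.irrefl hab
    · rw [ha'] at hab; exact hcon b hb' hab.symm
    · rw [hb'] at hab; exact hcon a ha' hab
    · exact hT.prop.2 a ha' b hb' hab
  exact hv (hT.le_of_ge hmem (Finset.subset_insert v T) (Finset.mem_insert_self v T))

/-- An `i`-set contained in an independent set equals it. -/
theorem eq_of_subset_indep {X Z : Finset V} (hX : IsIndepDom G X)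
    (hZ : ∀ u ∈ Z, ∀ v ∈ Z, ¬ G.Adj u v) (h : X ⊆ Z) : X = Z := by
  apply Finset.Subset.antisymm h
  intro z hz
  by_contra hzX
  obtain ⟨u, hu, huz⟩ := hX.2 z hzX
  exact hZ u (h hu) z hz huz

/-- Two `i`-sets that differ in at most one element of the first are equal or adjacent. -/
theorem eq_or_slide {X Y : Finset V} (hX : IsISet G X) (hY : IsISet G Y) (u : V)
    (h : ∀ x ∈ X, x ≠ u → x ∈ Y) : X = Y ∨ Slide G X Y := by
  classical
  have hcard : X.card = Y.card := by rw [hX.2, hY.2]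
  by_cases hu : u ∈ Y ∨ u ∉ X
  · left
    apply eq_of_subset_indep hX.1 hY.1.1
    intro x hx
    by_cases hxu : x = u
    · rcases hu with hu | hu
      · rw [hxu]; exact hu
      · exact absurd (hxu ▸ hx) hu
    · exact h x hx hxu
  · right
    push Not at hu
    obtain ⟨huY, huX⟩ := hu
    obtain ⟨v, hv, hvu⟩ := hY.1.2 u huY
    have hvX : v ∉ X := fun hvX => hX.1.1 v hvX u huX hvu
    refine ⟨u, huX, v, hvX, hvu.symm, fun w => ?_⟩
    have hsub : insert v (X.erase u) ⊆ Y := by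
      intro x hx
      rcases Finset.mem_insert.1 hx with rfl | hx
      · exact hv
      · exact h x (Finset.mem_of_mem_erase hx) (Finset.ne_of_mem_erase hx)
    have heq : insert v (X.erase u) = Y := by
      apply Finset.eq_of_subset_of_card_le hsub
      rw [Finset.card_insert_of_notMem (fun hh => hvX (Finset.mem_of_mem_erase hh)),
        Finset.card_erase_of_mem huX, ← hcard]
      have : 0 < X.card := Finset.card_pos.2 ⟨u, huX⟩
      omega
    rw [← heq, Finset.mem_insert, Finset.mem_erase]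
    tauto

/-- The square lemma: let `Y₁ = X - a₁ + b₁` and `Y₂ = X - a₂ + b₂` be distinct nonadjacent
neighbours of `X`, and let `Z ≠ X` be a common neighbour of `Y₁` and `Y₂`. Then `a₁ ≠ a₂`, `b₁ ≠ b₂`,
`Z = X - a₁ - a₂ + b₁ + b₂` contains `b₁`, `b₂` and all `x ∈ X` with `x ≠ a₁, a₂`. -/
theorem square {X Y1 Y2 Z : Finset V} (hX : IsISet G X) (hY1 : IsISet G Y1) (hY2 : IsISet G Y2)
    (hZ : IsISet G Z) {a1 b1 a2 b2 : V} (ha1 : a1 ∈ X) (hb1 : b1 ∉ X) (hab1 : G.Adj a1 b1)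
    (m1 : ∀ w, w ∈ Y1 ↔ (w ∈ X ∧ w ≠ a1) ∨ w = b1) (ha2 : a2 ∈ X) (hb2 : b2 ∉ X)
    (hab2 : G.Adj a2 b2) (m2 : ∀ w, w ∈ Y2 ↔ (w ∈ X ∧ w ≠ a2) ∨ w = b2)
    (hne : Y1 ≠ Y2) (hnadj : ¬ Slide G Y1 Y2) (hZX : Z ≠ X)
    (h1 : Slide G Y1 Z) (h2 : Slide G Y2 Z) :
    a1 ≠ a2 ∧ b1 ≠ b2 ∧ b1 ∈ Z ∧ b2 ∈ Z ∧ ∀ x ∈ X, x ≠ a1 → x ≠ a2 → x ∈ Z := by
  classical
  have ha : a1 ≠ a2 := by
    rintro rfl
    have := eq_or_slide hY1 hY2 b1 (by
      intro x hx hxb
      rcases (m1 x).1 hx with h | h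
      · exact (m2 x).2 (Or.inl h)
      · exact absurd h hxb)
    rcases this with h | h
    · exact hne h
    · exact hnadj h
  have hb : b1 ≠ b2 := by
    rintro rfl
    exact hY1.1.1 a2 ((m1 a2).2 (Or.inl ⟨ha2, ha.symm⟩)) b1 ((m1 b1).2 (Or.inr rfl)) hab2
  obtain ⟨p, hp, q, hq, _, mz1⟩ := h1
  obtain ⟨r, hr, s, hs, _, mz2⟩ := h2
  have k1 : ∀ x ∈ Y1, x ≠ p → x ∈ Z := fun x hx hxp => (mz1 x).2 (Or.inl ⟨hx, hxp⟩)
  have k2 : ∀ x ∈ Y2, x ≠ r → x ∈ Z := fun x hx hxr => (mz2 x).2 (Or.inl ⟨hx, hxr⟩)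
  have n1 : ¬ (a1 ∈ Z ∧ b1 ∈ Z) := fun h => hZ.1.1 a1 h.1 b1 h.2 hab1
  have n2 : ¬ (a2 ∈ Z ∧ b2 ∈ Z) := fun h => hZ.1.1 a2 h.1 b2 h.2 hab2
  have b1Y : b1 ∈ Y1 := (m1 b1).2 (Or.inr rfl)
  have a2Y : a2 ∈ Y1 := (m1 a2).2 (Or.inl ⟨ha2, ha.symm⟩)
  have b2Y : b2 ∈ Y2 := (m2 b2).2 (Or.inr rfl)
  have a1Y : a1 ∈ Y2 := (m2 a1).2 (Or.inl ⟨ha1, ha⟩)
  have b1a2 : b1 ≠ a2 := fun h => hb1 (h ▸ ha2)
  have b2a1 : b2 ≠ a1 := fun h => hb2 (h ▸ ha1)
  have c1 : b1 ∈ Z ∨ a2 ∈ Z := by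
    by_cases h : b1 = p
    · right; exact k1 a2 a2Y (fun h' => b1a2 (h.trans h'.symm))
    · left; exact k1 b1 b1Y h
  have c2 : b2 ∈ Z ∨ a1 ∈ Z := by
    by_cases h : b2 = r
    · right; exact k2 a1 a1Y (fun h' => b2a1 (h.trans h'.symm))
    · left; exact k2 b2 b2Y h
  have hfin : b1 ∈ Z ∧ b2 ∈ Z := by
    by_cases hb1Z : b1 ∈ Z
    · refine ⟨hb1Z, ?_⟩
      rcases c2 with h | h
      · exact h
      · exact absurd ⟨h, hb1Z⟩ n1
    · exfalso
      have a2Z : a2 ∈ Z := c1.resolve_left hb1Z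
      have b2Z : b2 ∉ Z := fun h => n2 ⟨a2Z, h⟩
      have a1Z : a1 ∈ Z := c2.resolve_left b2Z
      have hp' : b1 = p := by
        by_contra h
        exact hb1Z (k1 b1 b1Y h)
      apply hZX
      symm
      apply eq_of_subset_indep hX.1 hZ.1.1
      intro x hx
      by_cases hx1 : x = a1
      · rw [hx1]; exact a1Z
      · apply k1 x ((m1 x).2 (Or.inl ⟨hx, hx1⟩))
        rw [← hp']
        rintro rfl
        exact hb1 hx
  refine ⟨ha, hb, hfin.1, hfin.2, ?_⟩
  intro x hx hx1 hx2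
  have a2Z : a2 ∉ Z := fun h => n2 ⟨h, hfin.2⟩
  have hp' : a2 = p := by
    by_contra h
    exact a2Z (k1 a2 a2Y h)
  exact k1 x ((m1 x).2 (Or.inl ⟨hx, hx1⟩)) (by rw [← hp']; exact hx2)

/-- In a well-covered graph the eighth vertex of a cube is present. -/
theorem cube_completion [Fintype V] (hwc : WellCovered G)
    (X Y1 Y2 Y3 Z12 Z13 Z23 : {S : Finset V // IsISet G S})
    (x1 : (iGraph G).Adj X Y1) (x2 : (iGraph G).Adj X Y2) (x3 : (iGraph G).Adj X Y3)
    (n12 : Y1 ≠ Y2) (n13 : Y1 ≠ Y3) (n23 : Y2 ≠ Y3)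
    (y12 : ¬ (iGraph G).Adj Y1 Y2) (y13 : ¬ (iGraph G).Adj Y1 Y3) (y23 : ¬ (iGraph G).Adj Y2 Y3)
    (z12 : Z12 ≠ X) (z13 : Z13 ≠ X) (z23 : Z23 ≠ X)
    (e1 : (iGraph G).Adj Y1 Z12) (e2 : (iGraph G).Adj Y2 Z12) (e3 : (iGraph G).Adj Y1 Z13)
    (e4 : (iGraph G).Adj Y3 Z13) (e5 : (iGraph G).Adj Y2 Z23) (e6 : (iGraph G).Adj Y3 Z23) :
    ∃ W : {S : Finset V // IsISet G S},
      (iGraph G).Adj Z12 W ∧ (iGraph G).Adj Z13 W ∧ (iGraph G).Adj Z23 W := by
  classical
  obtain ⟨a1, ha1, b1, hb1, hab1, m1⟩ := x1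
  obtain ⟨a2, ha2, b2, hb2, hab2, m2⟩ := x2
  obtain ⟨a3, ha3, b3, hb3, hab3, m3⟩ := x3
  obtain ⟨A12, B12, p1, p2, p3⟩ := square X.2 Y1.2 Y2.2 Z12.2 ha1 hb1 hab1 m1 ha2 hb2 hab2 m2
    (fun h => n12 (Subtype.ext h)) y12 (fun h => z12 (Subtype.ext h)) e1 e2
  obtain ⟨A13, B13, q1, q2, q3⟩ := square X.2 Y1.2 Y3.2 Z13.2 ha1 hb1 hab1 m1 ha3 hb3 hab3 m3
    (fun h => n13 (Subtype.ext h)) y13 (fun h => z13 (Subtype.ext h)) e3 e4
  obtain ⟨A23, B23, r1, r2, r3⟩ := square X.2 Y2.2 Y3.2 Z23.2 ha2 hb2 hab2 m2 ha3 hb3 hab3 m3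
    (fun h => n23 (Subtype.ext h)) y23 (fun h => z23 (Subtype.ext h)) e5 e6
  set R : Finset V := ((X.1.erase a1).erase a2).erase a3 with hR
  set W : Finset V := insert b1 (insert b2 (insert b3 R)) with hWdef
  have memR : ∀ x, x ∈ R ↔ x ≠ a3 ∧ x ≠ a2 ∧ x ≠ a1 ∧ x ∈ X.1 := by
    intro x; rw [hR]; simp only [Finset.mem_erase]
  have memW : ∀ x, x ∈ W ↔ x = b1 ∨ x = b2 ∨ x = b3 ∨ x ∈ R := by
    intro x; rw [hWdef]; simp only [Finset.mem_insert]
  have nb1 : ∀ x ∈ R, ¬ G.Adj b1 x := by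
    intro x hx h
    have hx' := (memR x).1 hx
    exact Y1.2.1.1 b1 ((m1 b1).2 (Or.inr rfl)) x ((m1 x).2 (Or.inl ⟨hx'.2.2.2, hx'.2.2.1⟩)) h
  have nb2 : ∀ x ∈ R, ¬ G.Adj b2 x := by
    intro x hx h
    have hx' := (memR x).1 hx
    exact Y2.2.1.1 b2 ((m2 b2).2 (Or.inr rfl)) x ((m2 x).2 (Or.inl ⟨hx'.2.2.2, hx'.2.1⟩)) h
  have nb3 : ∀ x ∈ R, ¬ G.Adj b3 x := by
    intro x hx h
    have hx' := (memR x).1 hx
    exact Y3.2.1.1 b3 ((m3 b3).2 (Or.inr rfl)) x ((m3 x).2 (Or.inl ⟨hx'.2.2.2, hx'.1⟩)) h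
  have c12 : ¬ G.Adj b1 b2 := Z12.2.1.1 b1 p1 b2 p2
  have c13 : ¬ G.Adj b1 b3 := Z13.2.1.1 b1 q1 b3 q2
  have c23 : ¬ G.Adj b2 b3 := Z23.2.1.1 b2 r1 b3 r2
  have hWind : ∀ u ∈ W, ∀ v ∈ W, ¬ G.Adj u v := by
    intro u hu v hv huv
    rcases (memW u).1 hu with rfl | rfl | rfl | hu' <;> rcases (memW v).1 hv with rfl | rfl | rfl | hv'
    · exact G.irrefl huv
    · exact c12 huv
    · exact c13 huv
    · exact nb1 v hv' huv
    · exact c12 huv.symm
    · exact G.irrefl huv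
    · exact c23 huv
    · exact nb2 v hv' huv
    · exact c13 huv.symm
    · exact c23 huv.symm
    · exact G.irrefl huv
    · exact nb3 v hv' huv
    · exact nb1 u hu' huv.symm
    · exact nb2 u hu' huv.symm
    · exact nb3 u hu' huv.symm
    · exact X.2.1.1 u ((memR u).1 hu').2.2.2 v ((memR v).1 hv').2.2.2 huv
  have b1R : b1 ∉ R := fun h => hb1 ((memR b1).1 h).2.2.2
  have b2R : b2 ∉ R := fun h => hb2 ((memR b2).1 h).2.2.2
  have b3R : b3 ∉ R := fun h => hb3 ((memR b3).1 h).2.2.2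
  have hWcard : W.card = X.1.card := by
    rw [hWdef, Finset.card_insert_of_notMem, Finset.card_insert_of_notMem,
      Finset.card_insert_of_notMem b3R, hR, Finset.card_erase_of_mem, Finset.card_erase_of_mem,
      Finset.card_erase_of_mem ha1]
    · have h3 : ({a1, a2, a3} : Finset V) ⊆ X.1 := by
        intro x hx
        simp only [Finset.mem_insert, Finset.mem_singleton] at hx
        rcases hx with rfl | rfl | rfl
        · exact ha1
        · exact ha2
        · exact ha3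
      have h4 : ({a1, a2, a3} : Finset V).card = 3 := by
        rw [Finset.card_eq_three]
        exact ⟨a1, a2, a3, A12, A13, A23, rfl⟩
      have h5 := Finset.card_le_card h3
      omega
    · exact Finset.mem_erase.2 ⟨A12.symm, ha2⟩
    · exact Finset.mem_erase.2 ⟨A23.symm, Finset.mem_erase.2 ⟨A13.symm, ha3⟩⟩
    · intro h
      rcases Finset.mem_insert.1 h with h | h
      · exact B23 h
      · exact b2R h
    · intro h
      rcases Finset.mem_insert.1 h with h | h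
      · exact B12 h
      · rcases Finset.mem_insert.1 h with h | h
        · exact B13 h
        · exact b1R h
  have hWset : IsISet G W := by
    obtain ⟨T, hT, hWT⟩ := exists_extend W hWind
    have h1 : T.card = X.1.card := hwc T X.1 hT X.2.1
    have h2 : W = T := Finset.eq_of_subset_of_card_le hWT (by rw [h1, hWcard])
    rw [h2]
    exact ⟨hT, by rw [h1, X.2.2]⟩
  refine ⟨⟨W, hWset⟩, ?_, ?_, ?_⟩
  · apply Slide.symm
    rcases eq_or_slide hWset Z12.2 b3 (by
      intro x hx hxb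
      rcases (memW x).1 hx with rfl | rfl | rfl | hx'
      · exact p1
      · exact p2
      · exact absurd rfl hxb
      · exact p3 x ((memR x).1 hx').2.2.2 ((memR x).1 hx').2.2.1 ((memR x).1 hx').2.1) with h | h
    · exfalso
      have h3 : a3 ∈ W := by rw [h]; exact p3 a3 ha3 A13.symm A23.symm
      rcases (memW a3).1 h3 with h4 | h4 | h4 | h4
      · exact hb1 (h4 ▸ ha3)
      · exact hb2 (h4 ▸ ha3)
      · exact hb3 (h4 ▸ ha3)
      · exact ((memR a3).1 h4).1 rfl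
    · exact h
  · apply Slide.symm
    rcases eq_or_slide hWset Z13.2 b2 (by
      intro x hx hxb
      rcases (memW x).1 hx with rfl | rfl | rfl | hx'
      · exact q1
      · exact absurd rfl hxb
      · exact q2
      · exact q3 x ((memR x).1 hx').2.2.2 ((memR x).1 hx').2.2.1 ((memR x).1 hx').1) with h | h
    · exfalso
      have h3 : a2 ∈ W := by rw [h]; exact q3 a2 ha2 A12.symm A23
      rcases (memW a2).1 h3 with h4 | h4 | h4 | h4
      · exact hb1 (h4 ▸ ha2)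
      · exact hb2 (h4 ▸ ha2)
      · exact hb3 (h4 ▸ ha2)
      · exact ((memR a2).1 h4).2.1 rfl
    · exact h
  · apply Slide.symm
    rcases eq_or_slide hWset Z23.2 b1 (by
      intro x hx hxb
      rcases (memW x).1 hx with rfl | rfl | rfl | hx'
      · exact absurd rfl hxb
      · exact r1
      · exact r2
      · exact r3 x ((memR x).1 hx').2.2.2 ((memR x).1 hx').2.1 ((memR x).1 hx').1) with h | h
    · exfalso
      have h3 : a1 ∈ W := by rw [h]; exact r3 a1 ha1 A12 A13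
      rcases (memW a1).1 h3 with h4 | h4 | h4 | h4
      · exact hb1 (h4 ▸ ha1)
      · exact hb2 (h4 ▸ ha1)
      · exact hb3 (h4 ▸ ha1)
      · exact ((memR a1).1 h4).2.2.1 rfl
    · exact h

end General

theorem H_no_vertex : ∀ w : Fin 7, ¬ (H.Adj 3 w ∧ H.Adj 5 w ∧ H.Adj 6 w) := by decide +kernel

/-- The 3-cube minus a vertex is `i`-graph realizable, but no well-covered finite graph is a seed graph
of it. -/
theorem result : IsIGraph H ∧ ¬ ∃ (V : Type) (_ : Fintype V) (G : SimpleGraph V),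
    WellCovered G ∧ Nonempty (iGraph G ≃g H) := by
  refine ⟨H_isIGraph, ?_⟩
  rintro ⟨V, hV, G, hwc, ⟨φ⟩⟩
  have hadj : ∀ i j : Fin 7, (iGraph G).Adj (φ.symm i) (φ.symm j) ↔ H.Adj i j := fun i j =>
    φ.symm.map_adj_iff
  have hne : ∀ i j : Fin 7, i ≠ j → φ.symm i ≠ φ.symm j := fun i j h h' =>
    h (φ.symm.injective h')
  obtain ⟨W, h1, h2, h3⟩ := cube_completion hwc (φ.symm 0) (φ.symm 1) (φ.symm 2) (φ.symm 4)
    (φ.symm 3) (φ.symm 5) (φ.symm 6)
    ((hadj _ _).2 (by decide)) ((hadj _ _).2 (by decide)) ((hadj _ _).2 (by decide))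
    (hne _ _ (by decide)) (hne _ _ (by decide)) (hne _ _ (by decide))
    (fun h => absurd ((hadj _ _).1 h) (by decide)) (fun h => absurd ((hadj _ _).1 h) (by decide))
    (fun h => absurd ((hadj _ _).1 h) (by decide))
    (hne _ _ (by decide)) (hne _ _ (by decide)) (hne _ _ (by decide))
    ((hadj _ _).2 (by decide)) ((hadj _ _).2 (by decide)) ((hadj _ _).2 (by decide))
    ((hadj _ _).2 (by decide)) ((hadj _ _).2 (by decide)) ((hadj _ _).2 (by decide))
  have hW : φ.symm (φ W) = W := φ.symm_apply_apply W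
  rw [← hW] at h1 h2 h3
  exact H_no_vertex (φ W) ⟨(hadj _ _).1 h1, (hadj _ _).1 h2, (hadj _ _).1 h3⟩

end Pool.Agent.Results.MP_88e7bb_co.CubeMinusVertex
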